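import Mathlib

-- merged part: Pool.Agent.Work.MP_880652_co.Hedge.Phi
section
set_option autoImplicit false

namespace Pool.Agent.Work.MP_880652_co.Hedge

open Polynomial

variable {A : Type*} [CommRing A]

/-- Diagonal entries of symmetric powers of a two by two matrix with diagonal `a, d` and
determinant `e`. -/
def phi (a d e : A) : ℕ → ℕ → A
  | k, 0 => a ^ k
  | 0, l + 1 => d ^ (l + 1)
  | k + 1, l + 1 => a * phi a d e k (l + 1) + d * phi a d e (k + 1) l - e * phi a d e k l
termination_by k l => k + l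

@[simp] lemma phi_zero_right (a d e : A) (k : ℕ) : phi a d e k 0 = a ^ k := by
  rw [phi]

@[simp] lemma phi_zero_left (a d e : A) (l : ℕ) : phi a d e 0 l = d ^ l := by
  cases l with
  | zero => simp
  | succ l => rw [phi]

lemma phi_succ_succ (a d e : A) (k l : ℕ) :
    phi a d e (k + 1) (l + 1) =
      a * phi a d e k (l + 1) + d * phi a d e (k + 1) l - e * phi a d e k l := by
  rw [phi]

lemma phi_ind {P : ℕ → ℕ → Prop} (h0 : ∀ k, P k 0) (h1 : ∀ l, P 0 l)
    (h2 : ∀ k l, P k (l + 1) → P (k + 1) l → P k l → P (k + 1) (l + 1)) : ∀ k l, P k l := by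
  intro k
  induction k with
  | zero => exact h1
  | succ k ih =>
    intro l
    induction l with
    | zero => exact h0 _
    | succ l ihl => exact h2 k l (ih _) ihl (ih _)

lemma phi_symm (a d e : A) : ∀ k l, phi a d e k l = phi d a e l k := by
  refine phi_ind (by simp) (by simp) ?_
  intro k l h1 h2 h3
  rw [phi_succ_succ, phi_succ_succ, h1, h2, h3]; ring

lemma map_phi {B F : Type*} [CommRing B] [FunLike F A B] [RingHomClass F A B] (f : F)
    (a d e : A) : ∀ k l, f (phi a d e k l) = phi (f a) (f d) (f e) k l := by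
  refine phi_ind (by simp) (by simp) ?_
  intro k l h1 h2 h3
  rw [phi_succ_succ, phi_succ_succ, map_sub, map_add, map_mul, map_mul, map_mul, h1, h2, h3]

lemma phi_diag (a d : A) : ∀ k l, phi a d (a * d) k l = a ^ k * d ^ l := by
  refine phi_ind (by simp) (by simp) ?_
  intro k l h1 h2 h3
  rw [phi_succ_succ, h1, h2, h3]; ring

/-- General entries. -/
noncomputable def tau (a b c d : A) (k l j : ℕ) : A :=
  ((C a * X + C c) ^ k * (C b * X + C d) ^ l).coeff j

lemma tau_zero_zero (a b c d : A) (j : ℕ) : tau a b c d 0 0 j = if j = 0 then 1 else 0 := by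
  simp [tau, coeff_one]

lemma tau_succ_left_zero (a b c d : A) (k l : ℕ) :
    tau a b c d (k + 1) l 0 = c * tau a b c d k l 0 := by
  have : (C a * X + C c) ^ (k + 1) * (C b * X + C d) ^ l =
      C a * (X * ((C a * X + C c) ^ k * (C b * X + C d) ^ l)) +
        C c * ((C a * X + C c) ^ k * (C b * X + C d) ^ l) := by ring
  simp only [tau, this, coeff_add, coeff_C_mul, coeff_X_mul_zero]; ring

lemma tau_succ_left (a b c d : A) (k l j : ℕ) :
    tau a b c d (k + 1) l (j + 1) = a * tau a b c d k l j + c * tau a b c d k l (j + 1) := by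
  have : (C a * X + C c) ^ (k + 1) * (C b * X + C d) ^ l =
      C a * (X * ((C a * X + C c) ^ k * (C b * X + C d) ^ l)) +
        C c * ((C a * X + C c) ^ k * (C b * X + C d) ^ l) := by ring
  simp only [tau, this, coeff_add, coeff_C_mul, coeff_X_mul]

lemma tau_succ_right_zero (a b c d : A) (k l : ℕ) :
    tau a b c d k (l + 1) 0 = d * tau a b c d k l 0 := by
  have : (C a * X + C c) ^ k * (C b * X + C d) ^ (l + 1) =
      C b * (X * ((C a * X + C c) ^ k * (C b * X + C d) ^ l)) +
        C d * ((C a * X + C c) ^ k * (C b * X + C d) ^ l) := by ring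
  simp only [tau, this, coeff_add, coeff_C_mul, coeff_X_mul_zero]; ring

lemma tau_succ_right (a b c d : A) (k l j : ℕ) :
    tau a b c d k (l + 1) (j + 1) = b * tau a b c d k l j + d * tau a b c d k l (j + 1) := by
  have : (C a * X + C c) ^ k * (C b * X + C d) ^ (l + 1) =
      C b * (X * ((C a * X + C c) ^ k * (C b * X + C d) ^ l)) +
        C d * ((C a * X + C c) ^ k * (C b * X + C d) ^ l) := by ring
  simp only [tau, this, coeff_add, coeff_C_mul, coeff_X_mul]

lemma tau_gt (a b c d : A) (k : ℕ) : ∀ j, k < j → tau a b c d k 0 j = 0 := by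
  induction k with
  | zero => intro j hj; rw [tau_zero_zero, if_neg (by omega)]
  | succ k ih =>
    intro j hj
    obtain ⟨j, rfl⟩ : ∃ i, j = i + 1 := ⟨j - 1, by omega⟩
    rw [tau_succ_left, ih _ (by omega), ih _ (by omega)]; simp

lemma phi_eq_tau (a b c d : A) : ∀ k l, phi a d (a * d - b * c) k l = tau a b c d k l k := by
  refine phi_ind ?_ ?_ ?_
  · intro k
    induction k with
    | zero => simp [tau_zero_zero]
    | succ k ih =>
      rw [tau_succ_left, ← ih, tau_gt _ _ _ _ _ _ (Nat.lt_succ_self k)]; simp [pow_succ']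
  · intro l
    induction l with
    | zero => simp [tau_zero_zero]
    | succ l ih => rw [tau_succ_right_zero, ← ih]; simp [pow_succ']
  · intro k l h1 h2 h3
    rw [phi_succ_succ, h1, h2, h3]
    have : (C a * X + C c) ^ (k + 1) * (C b * X + C d) ^ (l + 1) =
        C a * (X * ((C a * X + C c) ^ k * (C b * X + C d) ^ (l + 1))) +
          C d * ((C a * X + C c) ^ (k + 1) * (C b * X + C d) ^ l) -
          C (a * d - b * c) * (X * ((C a * X + C c) ^ k * (C b * X + C d) ^ l)) := by
      simp only [map_sub, map_mul]; ring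
    simp only [tau]
    rw [this]
    simp only [coeff_add, coeff_sub, coeff_C_mul, coeff_X_mul]

lemma phi_mul_a (a b c d : A) (k l : ℕ) :
    ((k : A) + l + 2) * a * phi a d (a * d - b * c) k (l + 1) =
      ((k : A) + 1) * phi a d (a * d - b * c) (k + 1) (l + 1) +
        ((l : A) + 1) * (a * d - b * c) * phi a d (a * d - b * c) k l := by
  simp only [phi_eq_tau, tau]
  have h : derivative ((C a * X + C c) ^ (k + 1) * (C b * X + C d) ^ (l + 1)) =
      C (((k : A) + l + 2) * a) * ((C a * X + C c) ^ k * (C b * X + C d) ^ (l + 1)) -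
        C (((l : A) + 1) * (a * d - b * c)) * ((C a * X + C c) ^ k * (C b * X + C d) ^ l) := by
    simp only [derivative_mul, derivative_pow_succ, derivative_C, derivative_X,
      map_mul, map_add, map_sub, map_natCast, map_one, map_ofNat]
    ring
  have h2 := congrArg (fun P => coeff P k) h
  simp only [coeff_derivative, coeff_sub, coeff_C_mul] at h2
  linear_combination -h2

lemma phi_mul_d (a b c d : A) (k l : ℕ) :
    ((k : A) + l + 2) * d * phi a d (a * d - b * c) (k + 1) l =
      ((l : A) + 1) * phi a d (a * d - b * c) (k + 1) (l + 1) +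
        ((k : A) + 1) * (a * d - b * c) * phi a d (a * d - b * c) k l := by
  have h := phi_mul_a a b c d k l
  rw [phi_succ_succ] at h ⊢
  linear_combination -h

/-- Action of a derivation sending `b, d` to `a, c` and killing `a, c`. -/
lemma deriv_tau_plus {R : Type*} [CommRing R] [Algebra R A] (D : Derivation R A A) (a b c d : A)
    (ha : D a = 0) (hb : D b = a) (hc : D c = 0) (hd : D d = c) (k l : ℕ) :
    ∀ j, D (tau a b c d k l j) = (l : A) * tau a b c d (k + 1) (l - 1) j := by
  induction l with
  | zero =>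
    induction k with
    | zero => intro j; rw [tau_zero_zero]; split_ifs <;> simp
    | succ k ih =>
      intro j
      cases j with
      | zero => rw [tau_succ_left_zero, D.leibniz, ih, hc]; simp
      | succ j => rw [tau_succ_left, map_add, D.leibniz, D.leibniz, ih, ih, ha, hc]; simp
  | succ l ih =>
    intro j
    cases j with
    | zero =>
      rw [tau_succ_right_zero, D.leibniz, ih, hd]
      cases l with
      | zero => simp [tau_succ_left_zero, mul_comm]
      | succ l =>
        simp only [Nat.add_sub_cancel, smul_eq_mul, Nat.cast_add, Nat.cast_one]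
        rw [tau_succ_right_zero a b c d (k + 1) l, tau_succ_right_zero a b c d k l,
          tau_succ_left_zero]
        ring
    | succ j =>
      rw [tau_succ_right, map_add, D.leibniz, D.leibniz, ih, ih, hb, hd]
      cases l with
      | zero => simp [tau_succ_left, mul_comm]
      | succ l =>
        simp only [Nat.add_sub_cancel, smul_eq_mul, Nat.cast_add, Nat.cast_one]
        have h1 := tau_succ_right a b c d (k + 1) l j
        have h2 := tau_succ_left a b c d k (l + 1) j
        linear_combination (-(l : A) - 1) * h1 - h2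

/-- Action of a derivation sending `a, c` to `b, d` and killing `b, d`. -/
lemma deriv_tau_minus {R : Type*} [CommRing R] [Algebra R A] (D : Derivation R A A)
    (a b c d : A)
    (ha : D a = b) (hb : D b = 0) (hc : D c = d) (hd : D d = 0) (k l j : ℕ) :
    D (tau a b c d k l j) = (k : A) * tau a b c d (k - 1) (l + 1) j := by
  have hs : ∀ k l, tau a b c d k l j = tau b a d c l k j := by
    intro k l; simp only [tau, mul_comm]
  rw [hs, hs, deriv_tau_plus D b a d c hb ha hd hc]

lemma tau_id (k l j : ℕ) : tau (1 : A) 0 0 1 k l j = if j = k then 1 else 0 := by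
  simp [tau, coeff_X_pow]

lemma map_tau {B : Type*} [CommRing B] (f : A →+* B) (a b c d : A) (k l j : ℕ) :
    f (tau a b c d k l j) = tau (f a) (f b) (f c) (f d) k l j := by
  simp only [tau]
  rw [← coeff_map]
  simp

end Pool.Agent.Work.MP_880652_co.Hedge
end

-- merged part: Pool.Agent.Work.MP_880652_co.Hedge.Span
section
set_option autoImplicit false

namespace Pool.Agent.Work.MP_880652_co.Hedge

variable {A : Type*} [CommRing A] [Algebra ℚ A]

/-- Span of `e ^ i * phi (K - i) (L - i)`. -/
def Sp (a d e : A) (K L : ℕ) : Submodule ℚ A :=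
  Submodule.span ℚ {x | ∃ i k l, k + i = K ∧ l + i = L ∧ x = e ^ i * phi a d e k l}

lemma gen_mem (a d e : A) (i k l K L : ℕ) (h1 : k + i = K) (h2 : l + i = L) :
    e ^ i * phi a d e k l ∈ Sp a d e K L :=
  Submodule.subset_span ⟨i, k, l, h1, h2, rfl⟩

lemma mul_mem_Sp (a d e y : A) (K L K' L' : ℕ)
    (h : ∀ i k l, k + i = K → l + i = L → y * (e ^ i * phi a d e k l) ∈ Sp a d e K' L') :
    ∀ x ∈ Sp a d e K L, y * x ∈ Sp a d e K' L' := by
  intro x hx
  induction hx using Submodule.span_induction with
  | mem x hx => obtain ⟨i, k, l, h1, h2, rfl⟩ := hx; exact h i k l h1 h2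
  | zero => simp
  | add x z _ _ h1 h2 => rw [mul_add]; exact Submodule.add_mem _ h1 h2
  | smul r x _ h1 => rw [mul_smul_comm]; exact Submodule.smul_mem _ _ h1

lemma mem_of_nat_mul (S : Submodule ℚ A) (n : ℕ) (hn : n ≠ 0) (x : A) (h : (n : A) * x ∈ S) :
    x ∈ S := by
  have h1 : x = ((n : ℚ)⁻¹) • ((n : A) * x) := by
    rw [← nsmul_eq_mul, ← Nat.cast_smul_eq_nsmul ℚ, smul_smul, inv_mul_cancel₀ (by exact_mod_cast hn),
      one_smul]
  rw [h1]; exact S.smul_mem _ h

lemma nat_mul_mem (S : Submodule ℚ A) (n : ℕ) (x : A) (h : x ∈ S) : (n : A) * x ∈ S := by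
  rw [← nsmul_eq_mul]; exact nsmul_mem h n

lemma e_mul_mem (a d e : A) (K L : ℕ) :
    ∀ x ∈ Sp a d e K L, e * x ∈ Sp a d e (K + 1) (L + 1) := by
  refine mul_mem_Sp a d e e K L _ _ ?_
  intro i k l h1 h2
  rw [← mul_assoc, ← pow_succ']
  exact gen_mem a d e _ _ _ _ _ (by omega) (by omega)

lemma a_mul_mem (a b c d : A) (K L : ℕ) :
    ∀ x ∈ Sp a d (a * d - b * c) K L, a * x ∈ Sp a d (a * d - b * c) (K + 1) L := by
  refine mul_mem_Sp a d _ a K L _ _ ?_
  intro i k l h1 h2
  cases l with
  | zero =>
    have := gen_mem a d (a * d - b * c) i (k + 1) 0 (K + 1) L (by omega) h2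
    simp only [phi_zero_right] at this ⊢
    rw [show a * ((a * d - b * c) ^ i * a ^ k) = (a * d - b * c) ^ i * a ^ (k + 1) by ring]
    exact this
  | succ l =>
    refine mem_of_nat_mul _ (k + l + 2) (by omega) _ ?_
    have h := phi_mul_a a b c d k l
    have h3 : ((k + l + 2 : ℕ) : A) *
        (a * ((a * d - b * c) ^ i * phi a d (a * d - b * c) k (l + 1))) =
        ((k + 1 : ℕ) : A) * ((a * d - b * c) ^ i * phi a d (a * d - b * c) (k + 1) (l + 1)) +
        ((l + 1 : ℕ) : A) * ((a * d - b * c) ^ (i + 1) * phi a d (a * d - b * c) k l) := by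
      push_cast
      linear_combination (a * d - b * c) ^ i * h
    rw [h3]
    exact Submodule.add_mem _
      (nat_mul_mem _ _ _ (gen_mem _ _ _ _ _ _ _ _ (by omega) (by omega)))
      (nat_mul_mem _ _ _ (gen_mem _ _ _ _ _ _ _ _ (by omega) (by omega)))

lemma d_mul_mem (a b c d : A) (K L : ℕ) :
    ∀ x ∈ Sp a d (a * d - b * c) K L, d * x ∈ Sp a d (a * d - b * c) K (L + 1) := by
  refine mul_mem_Sp a d _ d K L _ _ ?_
  intro i k l h1 h2
  cases k with
  | zero =>
    have := gen_mem a d (a * d - b * c) i 0 (l + 1) K (L + 1) h1 (by omega)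
    simp only [phi_zero_left] at this ⊢
    rw [show d * ((a * d - b * c) ^ i * d ^ l) = (a * d - b * c) ^ i * d ^ (l + 1) by ring]
    exact this
  | succ k =>
    refine mem_of_nat_mul _ (k + l + 2) (by omega) _ ?_
    have h := phi_mul_d a b c d k l
    have h3 : ((k + l + 2 : ℕ) : A) *
        (d * ((a * d - b * c) ^ i * phi a d (a * d - b * c) (k + 1) l)) =
        ((l + 1 : ℕ) : A) * ((a * d - b * c) ^ i * phi a d (a * d - b * c) (k + 1) (l + 1)) +
        ((k + 1 : ℕ) : A) * ((a * d - b * c) ^ (i + 1) * phi a d (a * d - b * c) k l) := by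
      push_cast
      linear_combination (a * d - b * c) ^ i * h
    rw [h3]
    exact Submodule.add_mem _
      (nat_mul_mem _ _ _ (gen_mem _ _ _ _ _ _ _ _ (by omega) (by omega)))
      (nat_mul_mem _ _ _ (gen_mem _ _ _ _ _ _ _ _ (by omega) (by omega)))

lemma phi_mul_mem (a b c d : A) : ∀ k l, ∀ K L, ∀ x ∈ Sp a d (a * d - b * c) K L,
    phi a d (a * d - b * c) k l * x ∈ Sp a d (a * d - b * c) (K + k) (L + l) := by
  refine phi_ind ?_ ?_ ?_
  · intro k K L x hx
    induction k with
    | zero => simpa using hx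
    | succ k ih =>
      have := a_mul_mem a b c d _ _ _ ih
      simp only [phi_zero_right] at this ⊢
      rw [pow_succ', mul_assoc]; exact this
  · intro l K L x hx
    induction l with
    | zero => simpa using hx
    | succ l ih =>
      have := d_mul_mem a b c d _ _ _ ih
      simp only [phi_zero_left] at this ⊢
      rw [pow_succ', mul_assoc]; exact this
  · intro k l h1 h2 h3 K L x hx
    rw [phi_succ_succ, sub_mul, add_mul, mul_assoc, mul_assoc, mul_assoc]
    exact Submodule.sub_mem _
      (Submodule.add_mem _ (a_mul_mem a b c d _ _ _ (h1 K L x hx))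
        (d_mul_mem a b c d _ _ _ (h2 K L x hx)))
      (e_mul_mem a d _ _ _ _ (h3 K L x hx))

lemma exists_expansion (a b c d : A) (k l k' l' : ℕ) :
    ∃ w : Fin (min (k + k') (l + l') + 1) → ℚ,
      phi a d (a * d - b * c) k l * phi a d (a * d - b * c) k' l' =
        ∑ i, w i • ((a * d - b * c) ^ (i : ℕ) *
          phi a d (a * d - b * c) (k + k' - i) (l + l' - i)) := by
  have h := phi_mul_mem a b c d k' l' k l _ (gen_mem a d (a * d - b * c) 0 k l k l rfl rfl)
  rw [pow_zero, one_mul, mul_comm (phi _ _ _ _ _)] at h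
  have h2 : Sp a d (a * d - b * c) (k + k') (l + l') ≤ Submodule.span ℚ (Set.range
      (fun i : Fin (min (k + k') (l + l') + 1) => (a * d - b * c) ^ (i : ℕ) *
          phi a d (a * d - b * c) (k + k' - i) (l + l' - i))) := by
    refine Submodule.span_mono ?_
    rintro x ⟨i, s, t, h1, h2, rfl⟩
    refine ⟨⟨i, by omega⟩, ?_⟩
    simp only
    rw [show k + k' - i = s by omega, show l + l' - i = t by omega]
  obtain ⟨w, hw⟩ := (Submodule.mem_span_range_iff_exists_fun ℚ).1 (h2 h)
  exact ⟨w, hw.symm⟩

end Pool.Agent.Work.MP_880652_co.Hedge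
end

-- merged part: Pool.Agent.Work.MP_880652_co.Hedge.Fischer
section
set_option autoImplicit false

namespace Pool.Agent.Work.MP_880652_co.Hedge

open MvPolynomial

/-- The model space. -/
abbrev VV := MvPolynomial (Fin 4) ℚ

/-- Product of factorials of the exponents. -/
def fac (m : Fin 4 →₀ ℕ) : ℚ := ∏ i, ((m i).factorial : ℚ)

lemma fac_pos (m : Fin 4 →₀ ℕ) : 0 < fac m :=
  Finset.prod_pos fun _ _ => by exact_mod_cast Nat.factorial_pos _

lemma fac_add_single (m : Fin 4 →₀ ℕ) (i : Fin 4) :
    fac (m + Finsupp.single i 1) = fac m * (m i + 1) := by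
  fin_cases i <;> simp [fac, Fin.prod_univ_four, Nat.factorial_succ] <;> ring

/-- The Fischer form. -/
noncomputable def BB : VV →ₗ[ℚ] VV →ₗ[ℚ] ℚ :=
  (basisMonomials (Fin 4) ℚ).constr ℚ (fun m => fac m • lcoeff ℚ m)

lemma BB_monomial (m : Fin 4 →₀ ℕ) (r : ℚ) (g : VV) :
    BB (monomial m r) g = r * fac m * coeff m g := by
  have h1 : (monomial m r : VV) = r • basisMonomials (Fin 4) ℚ m := by
    simp [smul_monomial]
  rw [h1, map_smul, BB, Module.Basis.constr_basis]
  simp [mul_assoc]

lemma BB_symm (f g : VV) : BB f g = BB g f := by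
  induction f using MvPolynomial.induction_on' with
  | add p q hp hq => simp [hp, hq]
  | monomial m r =>
    induction g using MvPolynomial.induction_on' with
    | add p q hp hq => rw [map_add, hp, hq]; simp
    | monomial n s =>
      rw [BB_monomial, BB_monomial, coeff_monomial, coeff_monomial]
      by_cases h : m = n
      · subst h; simp; ring
      · rw [if_neg h, if_neg (Ne.symm h)]; simp

lemma BB_X_mul (i : Fin 4) (f g : VV) : BB (X i * f) g = BB f (pderiv i g) := by
  induction f using MvPolynomial.induction_on' with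
  | add p q hp hq => simp [mul_add, hp, hq]
  | monomial m r =>
    rw [X, monomial_mul, BB_monomial, BB_monomial, coeff_pderiv, add_comm (Finsupp.single i 1),
      fac_add_single]
    ring

lemma BB_nonneg (f : VV) : 0 ≤ BB f f := by
  have h : BB f f = ∑ m ∈ f.support, BB (monomial m (coeff m f)) f := by
    conv_lhs => enter [1]; rw [f.as_sum]
    rw [map_sum, LinearMap.sum_apply]
  rw [h]
  refine Finset.sum_nonneg fun m _ => ?_
  rw [BB_monomial]
  have := fac_pos m
  nlinarith [mul_self_nonneg (coeff m f)]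

/-- The operator `X i * pderiv j`. -/
noncomputable def op (i j : Fin 4) : Module.End ℚ VV :=
  (LinearMap.mulLeft ℚ (X i : VV)) ∘ₗ (pderiv j : Derivation ℚ VV VV).toLinearMap

lemma op_apply (i j : Fin 4) (f : VV) : op i j f = X i * pderiv j f := rfl

lemma BB_op (i j : Fin 4) (f g : VV) : BB (op i j f) g = BB f (op j i g) := by
  rw [op_apply, op_apply, BB_X_mul, BB_symm f, BB_X_mul, BB_symm]

/-- Raising operator. -/
noncomputable def Ep : Module.End ℚ VV := op 0 1 + op 2 3

/-- Lowering operator. -/
noncomputable def Em : Module.End ℚ VV := op 1 0 + op 3 2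

lemma BB_Om (f g : VV) : BB ((Ep * Em) f) g = BB f ((Ep * Em) g) := by
  have h1 : ∀ f g, BB (Ep f) g = BB f (Em g) := by
    intro f g; simp [Ep, Em, BB_op]
  have h2 : ∀ f g, BB (Em f) g = BB f (Ep g) := by
    intro f g; simp [Ep, Em, BB_op]
  rw [Module.End.mul_apply, Module.End.mul_apply, h1, h2]

lemma BB_aeval (r : Polynomial ℚ) (f g : VV) :
    BB (Polynomial.aeval (Ep * Em) r f) g = BB f (Polynomial.aeval (Ep * Em) r g) := by
  have hp : ∀ (n : ℕ) (f g : VV), BB (((Ep * Em) ^ n) f) g = BB f (((Ep * Em) ^ n) g) := by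
    intro n
    induction n with
    | zero => simp
    | succ n ih =>
      intro f g
      conv_lhs => rw [pow_succ', Module.End.mul_apply]
      conv_rhs => rw [pow_succ, Module.End.mul_apply]
      rw [BB_Om, ih]
  induction r using Polynomial.induction_on' with
  | add p q h1 h2 => simp [h1, h2]
  | monomial n a =>
    rw [Polynomial.aeval_monomial, Module.End.mul_apply, Module.End.mul_apply]
    simp only [Module.algebraMap_end_apply, map_smul, LinearMap.smul_apply, hp]

lemma coeff_sq_nonneg (r : Polynomial ℚ) (m : Fin 4 →₀ ℕ) :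
    0 ≤ coeff m (Polynomial.aeval (Ep * Em) (r * r) (monomial m 1 : VV)) := by
  have h := BB_nonneg (Polynomial.aeval (Ep * Em) r (monomial m 1 : VV))
  rw [BB_aeval, BB_monomial, one_mul] at h
  rw [map_mul, Module.End.mul_apply]
  exact nonneg_of_mul_nonneg_right h (fac_pos m)

lemma op_monomial (i j : Fin 4) (m : Fin 4 →₀ ℕ) :
    op i j (monomial m 1) =
      (m j : ℚ) • (monomial (Finsupp.single i 1 + (m - Finsupp.single j 1)) 1 : VV) := by
  rw [op_apply, pderiv_monomial, X, monomial_mul, smul_monomial]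
  simp

end Pool.Agent.Work.MP_880652_co.Hedge
end

-- merged part: Pool.Agent.Work.MP_880652_co.Hedge.Pos
section
set_option autoImplicit false

namespace Pool.Agent.Work.MP_880652_co.Hedge

open MvPolynomial

section

variable {A : Type*} [CommRing A] [Algebra ℚ A]

/-- Entry `tau` cut down to one total degree. -/
noncomputable def tt (a b c d : A) (N j s t : ℕ) : A :=
  if s + t = N then tau a b c d s t j else 0

/-- The map from the model space to products of two entries. -/
noncomputable def Th (a b c d : A) (N j N' j' : ℕ) : VV →ₗ[ℚ] A :=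
  (basisMonomials (Fin 4) ℚ).constr ℚ
    (fun m => tt a b c d N j (m 0) (m 1) * tt a b c d N' j' (m 2) (m 3))

lemma Th_monomial (a b c d : A) (N j N' j' : ℕ) (m : Fin 4 →₀ ℕ) :
    Th a b c d N j N' j' (monomial m 1) =
      tt a b c d N j (m 0) (m 1) * tt a b c d N' j' (m 2) (m 3) := by
  have h1 : (monomial m 1 : VV) = basisMonomials (Fin 4) ℚ m := by simp
  rw [h1, Th, Module.Basis.constr_basis]

lemma tt_plus (D : Derivation ℚ A A) (a b c d : A)
    (ha : D a = 0) (hb : D b = a) (hc : D c = 0) (hd : D d = c) (N j s t : ℕ) :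
    D (tt a b c d N j s t) = (t : A) * tt a b c d N j (1 + s) (t - 1) := by
  unfold tt
  cases t with
  | zero => split_ifs <;> simp [deriv_tau_plus D a b c d ha hb hc hd]
  | succ t =>
    by_cases h : s + (t + 1) = N
    · rw [if_pos h, if_pos (by omega), deriv_tau_plus D a b c d ha hb hc hd, add_comm 1 s]
    · rw [if_neg h, if_neg (by omega)]; simp

lemma tt_minus (D : Derivation ℚ A A) (a b c d : A)
    (ha : D a = b) (hb : D b = 0) (hc : D c = d) (hd : D d = 0) (N j s t : ℕ) :
    D (tt a b c d N j s t) = (s : A) * tt a b c d N j (s - 1) (1 + t) := by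
  unfold tt
  cases s with
  | zero => split_ifs <;> simp [deriv_tau_minus D a b c d ha hb hc hd]
  | succ s =>
    by_cases h : s + 1 + t = N
    · rw [if_pos h, if_pos (by omega), deriv_tau_minus D a b c d ha hb hc hd, add_comm 1 t]
    · rw [if_neg h, if_neg (by omega)]; simp

lemma lin_ext {M : Type*} [AddCommGroup M] [Module ℚ M] (f g : VV →ₗ[ℚ] M)
    (h : ∀ m, f (monomial m 1) = g (monomial m 1)) : f = g := by
  refine (basisMonomials (Fin 4) ℚ).ext fun m => ?_
  simpa using h m

lemma Th_Ep (D : Derivation ℚ A A) (a b c d : A)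
    (ha : D a = 0) (hb : D b = a) (hc : D c = 0) (hd : D d = c) (N j N' j' : ℕ) (f : VV) :
    Th a b c d N j N' j' (Ep f) = D (Th a b c d N j N' j' f) := by
  have : (Th a b c d N j N' j') ∘ₗ Ep = D.toLinearMap ∘ₗ Th a b c d N j N' j' := by
    refine lin_ext _ _ fun m => ?_
    simp only [LinearMap.comp_apply, Ep, LinearMap.add_apply, op_monomial, map_add, map_smul,
      Th_monomial, Derivation.coeFn_coe, Derivation.leibniz, tt_plus D a b c d ha hb hc hd]
    simp [Nat.cast_smul_eq_nsmul]
    ring
  exact LinearMap.congr_fun this f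

lemma Th_Em (D : Derivation ℚ A A) (a b c d : A)
    (ha : D a = b) (hb : D b = 0) (hc : D c = d) (hd : D d = 0) (N j N' j' : ℕ) (f : VV) :
    Th a b c d N j N' j' (Em f) = D (Th a b c d N j N' j' f) := by
  have : (Th a b c d N j N' j') ∘ₗ Em = D.toLinearMap ∘ₗ Th a b c d N j N' j' := by
    refine lin_ext _ _ fun m => ?_
    simp only [LinearMap.comp_apply, Em, LinearMap.add_apply, op_monomial, map_add, map_smul,
      Th_monomial, Derivation.coeFn_coe, Derivation.leibniz, tt_minus D a b c d ha hb hc hd]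
    simp [Nat.cast_smul_eq_nsmul]
    ring
  exact LinearMap.congr_fun this f

lemma intertwine {M N : Type*} [AddCommGroup M] [Module ℚ M] [AddCommGroup N] [Module ℚ N]
    (T : M →ₗ[ℚ] N) (f : Module.End ℚ M) (g : Module.End ℚ N) (h : ∀ x, T (f x) = g (T x))
    (r : Polynomial ℚ) (x : M) : T (Polynomial.aeval f r x) = Polynomial.aeval g r (T x) := by
  have hp : ∀ (n : ℕ), T ((f ^ n) x) = (g ^ n) (T x) := by
    intro n
    induction n with
    | zero => simp
    | succ n ih => rw [pow_succ', pow_succ', Module.End.mul_apply, Module.End.mul_apply, h, ih]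
  induction r using Polynomial.induction_on' with
  | add p q h1 h2 => simp [h1, h2]
  | monomial n a =>
    rw [Polynomial.aeval_monomial, Polynomial.aeval_monomial, Module.End.mul_apply,
      Module.End.mul_apply]
    simp only [Module.algebraMap_end_apply, map_smul, hp]

/-- The exponent vector `(k, l, k', l')`. -/
noncomputable def e0 (k l k' l' : ℕ) : Fin 4 →₀ ℕ := Finsupp.equivFunOnFinite.symm ![k, l, k', l']

lemma ev_Th (ev : A →ₐ[ℚ] ℚ) (a b c d : A) (ha : ev a = 1) (hb : ev b = 0) (hc : ev c = 0)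
    (hd : ev d = 1) (k l k' l' : ℕ) (f : VV) :
    ev (Th a b c d (k + l) k (k' + l') k' f) = coeff (e0 k l k' l') f := by
  have h1 : ∀ k l s t, ev (tt a b c d (k + l) k s t) = if s = k ∧ t = l then 1 else 0 := by
    intro k l s t
    unfold tt
    have := map_tau (ev : A →+* ℚ) a b c d s t k
    simp only [RingHom.coe_coe, ha, hb, hc, hd, tau_id] at this
    by_cases h : s + t = k + l
    · rw [if_pos h, this]
      by_cases h2 : k = s
      · rw [if_pos h2, if_pos (by omega)]
      · rw [if_neg h2, if_neg (by omega)]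
    · rw [if_neg h, if_neg (by omega), map_zero]
  have : ev.toLinearMap ∘ₗ Th a b c d (k + l) k (k' + l') k' = lcoeff ℚ (e0 k l k' l') := by
    refine lin_ext _ _ fun m => ?_
    simp only [LinearMap.comp_apply, Th_monomial, AlgHom.toLinearMap_apply, map_mul, h1,
      lcoeff_apply, coeff_monomial]
    by_cases h : m = e0 k l k' l'
    · subst h; simp [e0]
    · rw [if_neg h]
      by_cases h2 : m 0 = k ∧ m 1 = l
      · by_cases h3 : m 2 = k' ∧ m 3 = l'
        · exfalso; apply h
          ext i
          fin_cases i <;> simp [e0, h2.1, h2.2, h3.1, h3.2]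
        · rw [if_neg h3, mul_zero]
      · rw [if_neg h2, zero_mul]
  exact LinearMap.congr_fun this f

lemma expansion_nonneg (Dp Dm : Derivation ℚ A A) (ev : A →ₐ[ℚ] ℚ) (a b c d : A)
    (pa : Dp a = 0) (pb : Dp b = a) (pc : Dp c = 0) (pd : Dp d = c)
    (ma : Dm a = b) (mb : Dm b = 0) (mc : Dm c = d) (md : Dm d = 0)
    (ha : ev a = 1) (hb : ev b = 0) (hc : ev c = 0) (hd : ev d = 1) (k l k' l' : ℕ)
    (w : Fin (min (k + k') (l + l') + 1) → ℚ)
    (hw : phi a d (a * d - b * c) k l * phi a d (a * d - b * c) k' l' =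
        ∑ i, w i • ((a * d - b * c) ^ (i : ℕ) *
          phi a d (a * d - b * c) (k + k' - i) (l + l' - i))) (i) : 0 ≤ w i := by
  classical
  set Om : Module.End ℚ A := Dp.toLinearMap * Dm.toLinearMap with hOm
  set lam : Fin (min (k + k') (l + l') + 1) → ℚ :=
    fun i => ((k + k' - i : ℕ) : ℚ) * (((l + l' - i : ℕ) : ℚ) + 1) with hlam
  have hpe : ∀ n : ℕ, Dp ((a * d - b * c) ^ n) = 0 := by
    intro n
    have : Dp (a * d - b * c) = 0 := by
      simp only [map_sub, Derivation.leibniz, pa, pb, pc, pd, smul_eq_mul]; ring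
    rw [Derivation.leibniz_pow, this]; simp
  have hme : ∀ n : ℕ, Dm ((a * d - b * c) ^ n) = 0 := by
    intro n
    have : Dm (a * d - b * c) = 0 := by
      simp only [map_sub, Derivation.leibniz, ma, mb, mc, md, smul_eq_mul]; ring
    rw [Derivation.leibniz_pow, this]; simp
  have heig : ∀ n s t : ℕ, Om ((a * d - b * c) ^ n * phi a d (a * d - b * c) s t) =
      ((s : ℚ) * ((t : ℚ) + 1)) • ((a * d - b * c) ^ n * phi a d (a * d - b * c) s t) := by
    intro n s t
    rw [hOm, Module.End.mul_apply, phi_eq_tau]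
    simp only [Derivation.coeFn_coe, Derivation.leibniz, hme, hpe, add_zero,
      deriv_tau_minus Dm a b c d ma mb mc md, deriv_tau_plus Dp a b c d pa pb pc pd,
      smul_eq_mul, Derivation.map_natCast, mul_zero, Nat.add_sub_cancel]
    cases s with
    | zero => simp
    | succ s =>
      rw [Algebra.smul_def]
      simp only [Nat.add_sub_cancel, map_mul, map_add, map_natCast, map_one, Nat.cast_add,
        Nat.cast_one]
      ring
  have hinj : ∀ j, j ≠ i → lam i - lam j ≠ 0 := by
    intro j hj h
    have h1 : (k + k' - i) * (l + l' - i + 1) = (k + k' - j) * (l + l' - j + 1) := by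
      have := sub_eq_zero.1 h
      simp only [hlam] at this
      exact_mod_cast this
    have hi := i.2
    have hj2 := j.2
    have hne : (j : ℕ) ≠ i := fun h => hj (Fin.ext h)
    rcases lt_or_gt_of_ne hne with h2 | h2
    · have := Nat.mul_lt_mul_of_lt_of_le (show k + k' - i < k + k' - j by omega)
        (show l + l' - i + 1 ≤ l + l' - j + 1 by omega) (by omega)
      omega
    · have := Nat.mul_lt_mul_of_lt_of_le (show k + k' - j < k + k' - i by omega)
        (show l + l' - j + 1 ≤ l + l' - i + 1 by omega) (by omega)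
      omega
  set r : Polynomial ℚ := ∏ j ∈ Finset.univ.erase i, (Polynomial.X - Polynomial.C (lam j)) with hr
  have hri : r.eval (lam i) ≠ 0 := by
    rw [hr, Polynomial.eval_prod]
    refine Finset.prod_ne_zero_iff.2 fun j hj => ?_
    simpa using hinj j (Finset.ne_of_mem_erase hj)
  have hrj : ∀ j, j ≠ i → r.eval (lam j) = 0 := by
    intro j hj
    rw [hr, Polynomial.eval_prod]
    exact Finset.prod_eq_zero (Finset.mem_erase.2 ⟨hj, Finset.mem_univ _⟩) (by simp)
  have h1 := coeff_sq_nonneg r (e0 k l k' l')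
  rw [← ev_Th ev a b c d ha hb hc hd, intertwine _ (Ep * Em) Om (fun x => by
    rw [Module.End.mul_apply, Th_Ep Dp a b c d pa pb pc pd, Th_Em Dm a b c d ma mb mc md]; rfl),
    Th_monomial] at h1
  have h2 : tt a b c d (k + l) k (e0 k l k' l' 0) (e0 k l k' l' 1) *
      tt a b c d (k' + l') k' (e0 k l k' l' 2) (e0 k l k' l' 3) =
      phi a d (a * d - b * c) k l * phi a d (a * d - b * c) k' l' := by
    simp [e0, tt, phi_eq_tau]
  rw [h2, hw, map_sum, map_sum] at h1
  have h3 : ∀ j : Fin (min (k + k') (l + l') + 1), ev (Polynomial.aeval Om (r * r)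
      (w j • ((a * d - b * c) ^ (j : ℕ) * phi a d (a * d - b * c) (k + k' - j) (l + l' - j)))) =
      w j * (r.eval (lam j) * r.eval (lam j)) := by
    intro j
    rw [map_smul, Module.End.aeval_apply_of_mem_apply_eq_smul (heig _ _ _), map_smul, map_smul,
      map_mul, map_pow, map_phi, map_sub, map_mul, map_mul, ha, hb, hc, hd]
    have := phi_diag (1 : ℚ) 1 (k + k' - j) (l + l' - j)
    simp only [mul_one, one_pow] at this
    simp [this, hlam]
  rw [Finset.sum_congr rfl fun j _ => h3 j, Finset.sum_eq_single i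
    (fun j _ hj => by rw [hrj j hj]; simp) (by simp)] at h1
  exact nonneg_of_mul_nonneg_left h1 (mul_self_pos.2 hri)

end

/-- Linearisation with nonnegative coefficients, in any algebra over the rationals. -/
theorem phi_mul_phi {A : Type*} [CommRing A] [Algebra ℚ A] (a b c d : A) (k l k' l' : ℕ) :
    ∃ w : Fin (min (k + k') (l + l') + 1) → ℚ, (∀ i, 0 ≤ w i) ∧
      phi a d (a * d - b * c) k l * phi a d (a * d - b * c) k' l' =
        ∑ i, w i • ((a * d - b * c) ^ (i : ℕ) *
          phi a d (a * d - b * c) (k + k' - i) (l + l' - i)) := by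
  obtain ⟨w, hw⟩ := exists_expansion (X 0 : VV) (X 1) (X 2) (X 3) k l k' l'
  refine ⟨w, expansion_nonneg (mkDerivation ℚ ![0, X 0, 0, X 2])
    (mkDerivation ℚ ![X 1, 0, X 3, 0]) (aeval ![1, 0, 0, 1]) _ _ _ _
    (by simp) (by simp) (by simp) (by simp) (by simp) (by simp) (by simp) (by simp)
    (by simp) (by simp) (by simp) (by simp) k l k' l' w hw, ?_⟩
  have := congrArg (aeval (R := ℚ) ![a, b, c, d]) hw
  simpa [map_phi] using this

end Pool.Agent.Work.MP_880652_co.Hedge
end

-- merged part: Pool.Agent.Work.MP_880652_co.Hedge.Cone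
section
set_option autoImplicit false

namespace Pool.Agent.Work.MP_880652_co.Hedge

open Polynomial

/-- Nonnegative rational combinations of elements of `S`. -/
inductive Cone {M : Type*} [AddCommGroup M] [Module ℚ M] (S : Set M) : M → Prop
  | zero : Cone S 0
  | gen (r : ℚ) (x : M) : 0 ≤ r → x ∈ S → Cone S (r • x)
  | add (x y : M) : Cone S x → Cone S y → Cone S (x + y)

section
variable {M : Type*} [AddCommGroup M] [Module ℚ M] {S : Set M}

lemma Cone.of_mem {x : M} (h : x ∈ S) : Cone S x := by
  simpa using Cone.gen 1 x zero_le_one h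

lemma Cone.smul {x : M} (h : Cone S x) {r : ℚ} (hr : 0 ≤ r) : Cone S (r • x) := by
  induction h with
  | zero => simpa using Cone.zero
  | gen s x hs hx => rw [smul_smul]; exact Cone.gen _ _ (mul_nonneg hr hs) hx
  | add x y _ _ h1 h2 => rw [smul_add]; exact Cone.add _ _ h1 h2

lemma Cone.sum {ι : Type*} (s : Finset ι) (f : ι → M) (h : ∀ i ∈ s, Cone S (f i)) :
    Cone S (∑ i ∈ s, f i) :=
  Finset.sum_induction f (Cone S) (fun _ _ => Cone.add _ _) Cone.zero h

end

section
variable {A : Type*} [CommRing A] {R : Type*} [CommRing R] [Algebra R A]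

lemma deriv_pow_succ (D : Derivation R A A) (a : A) (k : ℕ) :
    D (a ^ (k + 1)) = ((k : A) + 1) * a ^ k * D a := by
  rw [Derivation.leibniz_pow]; simp [mul_assoc]

lemma deriv_phi_succ (D : Derivation R A A) (a d t : A) (ha : D a = t) (hd : D d = -t) (k l : ℕ) :
    D (phi a d 1 (k + 1) (l + 1)) = t * phi a d 1 k (l + 1) - t * phi a d 1 (k + 1) l +
      a * D (phi a d 1 k (l + 1)) + d * D (phi a d 1 (k + 1) l) - D (phi a d 1 k l) := by
  rw [phi_succ_succ, one_mul, map_sub, map_add, D.leibniz, D.leibniz, ha, hd]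
  simp only [smul_eq_mul]; ring

lemma key_base (D : Derivation R A A) (a d t : A) (ha : D a = t) (hd : D d = -t) (k : ℕ) :
    D (phi a d 1 (k + 1) 1) - D (phi a d 1 k 0) =
      ((k : A) + 2) * t * (phi a d 1 k 1 - phi a d 1 (k + 1) 0) := by
  induction k with
  | zero =>
    have := deriv_phi_succ D a d t ha hd 0 0
    simp only [phi_zero_left, phi_zero_right, zero_add, pow_one, pow_zero, ha, hd,
      Derivation.map_one_eq_zero] at this ⊢
    rw [this]; push_cast; ring
  | succ k ih =>
    have h1 := deriv_phi_succ D a d t ha hd (k + 1) 0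
    have h2 := phi_succ_succ a d 1 k 0
    have h3 : a * D (a ^ k) = k * a ^ k * t := by
      cases k with
      | zero => simp
      | succ k => rw [deriv_pow_succ, ha]; push_cast; ring
    simp only [phi_zero_right, zero_add, deriv_pow_succ, ha] at h1 h2 ih ⊢
    push_cast at h1 ⊢
    linear_combination h1 + a * ih + h3 - ((k : A) + 2) * t * h2

lemma key (D : Derivation R A A) (a d t : A) (ha : D a = t) (hd : D d = -t) : ∀ k l : ℕ,
    D (phi a d 1 (k + 1) (l + 1)) - D (phi a d 1 k l) =
      ((k : A) + l + 2) * t * (phi a d 1 k (l + 1) - phi a d 1 (k + 1) l) := by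
  refine phi_ind ?_ ?_ ?_
  · intro k; simpa using key_base D a d t ha hd k
  · intro l
    have := key_base D d a (-t) hd (by rw [ha, neg_neg]) l
    rw [phi_symm d a, phi_symm d a, phi_symm d a, phi_symm d a] at this
    simp only [zero_add, Nat.cast_zero]
    linear_combination this
  · intro k l h1 h2 h3
    have h4 := deriv_phi_succ D a d t ha hd (k + 1) (l + 1)
    have h5 := deriv_phi_succ D a d t ha hd k l
    have h6 := phi_succ_succ a d 1 k (l + 1)
    have h7 := phi_succ_succ a d 1 (k + 1) l
    push_cast at h1 h2 ⊢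
    linear_combination h4 + a * h1 + d * h2 - h5 - h3 - ((k : A) + l + 3) * t * (h6 - h7)

/-- Upper part of a level. -/
def UU (a d : A) : ℕ → ℕ → A
  | k, 0 => phi a d 1 k 0
  | k, l + 1 => phi a d 1 k (l + 1) + UU a d (k + 1) l

/-- Lower part of a level. -/
def LL (a d : A) : ℕ → ℕ → A
  | 0, _ => 0
  | k + 1, l => phi a d 1 k l + LL a d k (l + 1)

/-- The image of `phi k l` under the edge operator, up to the factor `k + l + 1`. -/
def Out (a d : A) (k l : ℕ) : A := UU a d (k + 1) l + LL a d k l

lemma Out_succ (a d : A) (k l : ℕ) :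
    Out a d k (l + 1) = Out a d (k + 1) l + phi a d 1 (k + 1) (l + 1) - phi a d 1 k l := by
  simp only [Out, UU, LL]; ring

lemma UU_add_LL (a d : A) (l : ℕ) : ∀ k, UU a d k l + LL a d k (l + 1) = LL a d (k + l + 1) 0 := by
  induction l with
  | zero => intro k; simp [UU, LL]
  | succ l ih =>
    intro k
    have := ih (k + 1)
    rw [show k + (l + 1) + 1 = k + 1 + l + 1 by ring, ← this]
    simp only [UU, LL]; ring

lemma deriv_Out_aux (D : Derivation R A A) (a d t : A) (ha : D a = t) (hd : D d = -t) (l : ℕ) :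
    ∀ k, D (Out a d k l) = ((k : A) + l + 1) * t * phi a d 1 k l + D (LL a d (k + l) 0) := by
  induction l with
  | zero => intro k; simp [Out, UU, ha]; ring
  | succ l ih =>
    intro k
    have h1 := ih (k + 1)
    have h2 := key D a d t ha hd k l
    rw [Out_succ, map_sub, map_add, h1, show k + (l + 1) = k + 1 + l by ring]
    push_cast
    linear_combination h2

lemma deriv_LL (D : Derivation R A A) (a d t : A) (ha : D a = t) (hd : D d = -t) (n : ℕ) :
    D (LL a d n 0) = 0 := by
  induction n using Nat.twoStepInduction with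
  | zero => simp [LL]
  | one => simp [LL]
  | more n ih _ =>
    have h1 := deriv_Out_aux D a d t ha hd n 0
    have h2 := congrArg D (UU_add_LL a d n 1)
    rw [show 1 + n + 1 = n + 2 by ring] at h2
    rw [← h2]
    simp only [Out, LL, zero_add, add_zero, phi_zero_left, ih, map_add, deriv_pow_succ, hd,
      Nat.cast_zero] at h1 ⊢
    rw [h1]; ring

lemma deriv_Out (D : Derivation R A A) (a d t : A) (ha : D a = t) (hd : D d = -t) (k l : ℕ) :
    D (Out a d k l) = ((k : A) + l + 1) * t * phi a d 1 k l := by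
  rw [deriv_Out_aux D a d t ha hd, deriv_LL D a d t ha hd, add_zero]

/-- The quantum integer. -/
def br (p q : A) : ℕ → A
  | 0 => 0
  | n + 1 => p ^ n + q * br p q n

lemma br_mul (p q : A) (n : ℕ) : (p - q) * br p q n = p ^ n - q ^ n := by
  induction n with
  | zero => simp [br]
  | succ n ih => rw [br]; linear_combination q * ih

lemma br_symm (p q : A) (n : ℕ) : br p q n = br q p n := by
  induction n using Nat.twoStepInduction with
  | zero => rfl
  | one => simp [br]
  | more n h1 h2 =>
    have h3 := br_mul p q (n + 1)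
    rw [br, br.eq_2 q p (n + 1), ← h2]
    linear_combination -h3

lemma map_LL {B : Type*} [CommRing B] (f : A →+* B) (a d : A) (h : f a * f d = 1) (k : ℕ) :
    ∀ l, f (LL a d k l) = f d ^ l * br (f a) (f d) k := by
  induction k with
  | zero => intro l; simp [LL, br]
  | succ k ih =>
    intro l
    rw [LL, map_add, ih, map_phi, map_one, ← h, phi_diag, br]; ring

lemma map_Out {B : Type*} [CommRing B] (f : A →+* B) (a d : A) (h : f a * f d = 1) (l : ℕ) :
    ∀ k, f (Out a d k l) = f a * br (f a) (f d) (k + l + 1) := by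
  induction l with
  | zero =>
    intro k
    rw [Out, map_add, map_LL f a d h, UU, phi_zero_right, map_pow, br]
    linear_combination (-br (f a) (f d) k) * h
  | succ l ih =>
    intro k
    rw [Out_succ, map_sub, map_add, ih, map_phi, map_phi, map_one, ← h, phi_diag, phi_diag,
      show k + 1 + l + 1 = k + (l + 1) + 1 by ring]
    linear_combination (f a ^ k * f d ^ l) * h

end

section
variable {A : Type*} [CommRing A] [Algebra ℚ A]

/-- The generators of the cone. -/
def gens (a d : A) : Set A := {x | ∃ k l, x = phi a d 1 k l}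

omit [Algebra ℚ A] in
lemma gens_symm (a d : A) : gens a d = gens d a := by
  ext x
  constructor <;> rintro ⟨k, l, rfl⟩ <;> exact ⟨l, k, phi_symm _ _ _ _ _⟩

lemma cone_phi (a d : A) (k l : ℕ) : Cone (gens a d) (phi a d 1 k l) := Cone.of_mem ⟨k, l, rfl⟩

lemma cone_UU (a d : A) (l : ℕ) : ∀ k, Cone (gens a d) (UU a d k l) := by
  induction l with
  | zero => intro k; exact cone_phi a d k 0
  | succ l ih => intro k; exact Cone.add _ _ (cone_phi a d _ _) (ih _)

lemma cone_LL (a d : A) (k : ℕ) : ∀ l, Cone (gens a d) (LL a d k l) := by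
  induction k with
  | zero => intro l; exact Cone.zero
  | succ k ih => intro l; exact Cone.add _ _ (cone_phi a d _ _) (ih _)

lemma cone_Out (a d : A) (k l : ℕ) : Cone (gens a d) (Out a d k l) :=
  Cone.add _ _ (cone_UU a d _ _) (cone_LL a d _ _)

lemma cone_mul (a b c d : A) (h : a * d - b * c = 1) {x y : A} (hx : Cone (gens a d) x)
    (hy : Cone (gens a d) y) : Cone (gens a d) (x * y) := by
  induction hx with
  | zero => simpa using Cone.zero
  | add x z _ _ h1 h2 => rw [add_mul]; exact Cone.add _ _ h1 h2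
  | gen r x hr hx =>
    rw [smul_mul_assoc]
    refine Cone.smul ?_ hr
    induction hy with
    | zero => simpa using Cone.zero
    | add y z _ _ h1 h2 => rw [mul_add]; exact Cone.add _ _ h1 h2
    | gen s y hs hy =>
      rw [mul_smul_comm]
      refine Cone.smul ?_ hs
      obtain ⟨k, l, rfl⟩ := hx
      obtain ⟨k', l', rfl⟩ := hy
      obtain ⟨w, hw, h2⟩ := phi_mul_phi a b c d k l k' l'
      rw [h] at h2
      rw [h2]
      refine Cone.sum _ _ fun i _ => Cone.smul ?_ (hw i)
      rw [one_pow, one_mul]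
      exact cone_phi a d _ _

end

end Pool.Agent.Work.MP_880652_co.Hedge
end

-- merged part: Pool.Agent.Work.MP_880652_co.Hedge.Edge
section
set_option autoImplicit false

namespace Pool.Agent.Work.MP_880652_co.Hedge

open Polynomial

variable {R : Type*} [CommRing R]

/-- The diagonal entry `(1 - u) p + u q`. -/
noncomputable def za (p q : R) : R[X] := (1 - X) * C p + X * C q

lemma za_zero (p q : R) : (za p q).eval 0 = p := by simp [za]

lemma za_one (p q : R) : (za p q).eval 1 = q := by simp [za]

lemma za_deriv (p q : R) : derivative' (za p q) = C (q - p) := by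
  change derivative (za p q) = _
  simp [za]; ring

lemma za_deriv' (p q : R) : derivative' (za q p) = -C (q - p) := by
  rw [za_deriv, ← map_neg, neg_sub]

variable [Algebra ℚ R]

/-- The cone of root functions. -/
def KK (p q : R) (F : R[X]) : Prop := Cone (gens (za p q) (za q p)) F

/-- The cone spanned by the quantum integers. -/
def UC (p q : R) (B : R) : Prop := Cone {x | ∃ n, x = br p q n} B

lemma KK_symm {p q : R} {F : R[X]} (h : KK p q F) : KK q p F := by
  unfold KK at *; rwa [gens_symm]

lemma UC_symm {p q : R} {B : R} (h : UC p q B) : UC q p B := by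
  unfold UC at *; simpa only [br_symm p q] using h

lemma KK_one (p q : R) : KK p q 1 := by
  simpa [KK] using cone_phi (za p q) (za q p) 0 0

lemma KK_mul {p q : R} (hpq : p * q = 1) {F G : R[X]} (hF : KK p q F) (hG : KK p q G) :
    KK p q (F * G) := by
  refine cone_mul _ (X * C (p - q)) ((1 - X) * C (p - q)) _ ?_ hF hG
  have : (C p : R[X]) * C q = 1 := by rw [← map_mul, hpq, map_one]
  simp only [za, map_sub]
  linear_combination this

lemma const_of_deriv {F : R[X]} (h : derivative F = 0) : F = C (F.eval 0) := by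
  have : IsAddTorsionFree R := IsAddTorsionFree.of_module_rat R
  rw [← coeff_zero_eq_eval_zero]
  exact eq_C_of_derivative_eq_zero h

lemma KK_C {p q : R} (hpq : p * q = 1) {B : R} (h : UC p q B) : KK p q (C B) := by
  induction h with
  | zero => rw [map_zero]; exact Cone.zero
  | add x y _ _ h1 h2 => rw [map_add]; exact Cone.add _ _ h1 h2
  | gen r x hr hx =>
    obtain ⟨n, rfl⟩ := hx
    rw [← smul_C]
    refine Cone.smul ?_ hr
    have h1 := const_of_deriv
      (deriv_LL derivative' (za p q) (za q p) _ (za_deriv p q) (za_deriv' p q) n)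
    have h2 := map_LL (evalRingHom 0) (za p q) (za q p) (by simpa [za_zero] using hpq) n 0
    simp only [coe_evalRingHom, za_zero, pow_zero, one_mul] at h2
    rw [← h2, ← h1]
    exact cone_LL _ _ _ _

lemma edge_exists {p q : R} (hpq : p * q = 1) {F : R[X]} (h : KK p q F) :
    ∃ G B, KK p q G ∧ UC p q B ∧ derivative G = C (q - p) * F ∧ G.eval 0 = p * B ∧
      G.eval 1 = q * B := by
  induction h with
  | zero => exact ⟨0, 0, Cone.zero, Cone.zero, by simp, by simp, by simp⟩
  | add x y _ _ h1 h2 =>
    obtain ⟨G, B, a1, a2, a3, a4, a5⟩ := h1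
    obtain ⟨G', B', b1, b2, b3, b4, b5⟩ := h2
    exact ⟨G + G', B + B', Cone.add _ _ a1 b1, Cone.add _ _ a2 b2,
      by rw [map_add, a3, b3, mul_add], by rw [eval_add, a4, b4, mul_add],
      by rw [eval_add, a5, b5, mul_add]⟩
  | gen r x hr hx =>
    obtain ⟨k, l, rfl⟩ := hx
    have hs : 0 ≤ r / ((k : ℚ) + l + 1) := by positivity
    refine ⟨(r / ((k : ℚ) + l + 1)) • Out (za p q) (za q p) k l,
      (r / ((k : ℚ) + l + 1)) • br p q (k + l + 1), Cone.smul (cone_Out _ _ _ _) hs,
      Cone.gen _ _ hs ⟨_, rfl⟩, ?_, ?_, ?_⟩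
    · have h1 := deriv_Out derivative' (za p q) (za q p) _ (za_deriv p q) (za_deriv' p q) k l
      change derivative _ = _ at h1
      have h2 : ((k : R[X]) + l + 1) = algebraMap ℚ R[X] ((k : ℚ) + l + 1) := by simp
      rw [derivative_smul, h1, mul_assoc, h2, ← Algebra.smul_def, smul_smul,
        div_mul_cancel₀ _ (by positivity), mul_smul_comm]
    · have h2 := map_Out (evalRingHom 0) (za p q) (za q p) (by simpa [za_zero] using hpq) l k
      simp only [coe_evalRingHom, za_zero] at h2
      rw [eval_smul, h2, mul_smul_comm]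
    · have h2 := map_Out (evalRingHom 1) (za p q) (za q p)
        (by simpa [za_one, mul_comm] using hpq) l k
      simp only [coe_evalRingHom, za_one] at h2
      rw [eval_smul, h2, mul_smul_comm, br_symm]

lemma edge_lemma [IsDomain R] {p q : R} (hpq : p * q = 1) (hne : p ≠ q) {F G : R[X]} {A : R}
    (h : KK p q F) (h1 : derivative G = C (q - p) * F) (h2 : G.eval 0 = p * A)
    (h3 : G.eval 1 = q * A) : KK p q G ∧ UC p q A := by
  obtain ⟨G', B, a1, a2, a3, a4, a5⟩ := edge_exists hpq h
  have h4 := const_of_deriv (F := G - G') (by rw [map_sub, h1, a3, sub_self])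
  have h5 := congrArg (eval 1) h4
  rw [eval_C, eval_sub, eval_sub, h2, h3, a4, a5] at h5
  have h6 : (p - q) * (A - B) = 0 := by linear_combination -h5
  have h7 : A = B := sub_eq_zero.1 ((mul_eq_zero.1 h6).resolve_left (sub_ne_zero.2 hne))
  subst h7
  rw [eval_sub, h2, a4, sub_self, map_zero, sub_eq_zero] at h4
  exact ⟨h4 ▸ a1, a2⟩

end Pool.Agent.Work.MP_880652_co.Hedge
end

-- merged part: Pool.Agent.Work.MP_880652_co.Hedge.Root
section
set_option autoImplicit false

namespace Pool.Agent.Work.MP_880652_co.Hedge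

open Polynomial Finset

variable {R : Type*} [CommRing R] [Algebra ℚ R] {α : Type*} [DecidableEq α]

/-- Average weight of the orderings of `S`, by recursion on the first element. -/
def Wn (t : ℤ → R) (c : α → α → ℤ) : ℕ → Finset α → R
  | 0, _ => 1
  | n + 1, S => ((n : ℚ) + 1)⁻¹ • ∑ w ∈ S, t (∑ y ∈ S, c w y) * Wn t c n (S.erase w)

/-- Average weight of the orderings of `S`. -/
def W (t : ℤ → R) (c : α → α → ℤ) (S : Finset α) : R := Wn t c S.card S

lemma nat_cancel (n : ℕ) (hn : n ≠ 0) {x y : R} (h : (n : R) * x = n * y) : x = y := by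
  have := mem_of_nat_mul (⊥ : Submodule ℚ R) n hn (x - y) (by rw [mul_sub, h]; simp)
  exact sub_eq_zero.1 (by simpa using this)

variable {t : ℤ → R} {c : α → α → ℤ}

@[simp] lemma W_empty : W t c ∅ = 1 := rfl

lemma W_first (S : Finset α) :
    (S.card : R) * W t c S = ∑ w ∈ S, t (∑ y ∈ S, c w y) * W t c (S.erase w) := by
  rcases hn : S.card with _ | n
  · rw [card_eq_zero.1 hn]; simp
  · have h2 : ((n + 1 : ℕ) : R) = algebraMap ℚ R ((n : ℚ) + 1) := by simp
    rw [W, hn, Wn, h2, ← Algebra.smul_def, smul_smul, mul_inv_cancel₀ (by positivity), one_smul]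
    refine sum_congr rfl fun w hw => ?_
    rw [W, card_erase_of_mem hw, hn, Nat.add_sub_cancel]

lemma W_last (hadd : ∀ m n, t (m + n) = t m * t n) (hc : ∀ x y, c x y = -c y x) (n : ℕ) :
    ∀ S : Finset α, S.card = n →
      (S.card : R) * W t c S = ∑ w ∈ S, t (-∑ y ∈ S, c w y) * W t c (S.erase w) := by
  induction n with
  | zero => intro S hS; rw [card_eq_zero.1 hS]; simp
  | succ n ih =>
    intro S hS
    rw [W_first]
    rcases Nat.eq_zero_or_pos n with rfl | hn
    · obtain ⟨w, rfl⟩ := card_eq_one.1 hS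
      have : c w w = 0 := by have := hc w w; omega
      simp [this]
    · refine nat_cancel n hn.ne' ?_
      have hc1 : ∀ w ∈ S, (S.erase w).card = n := fun w hw => by
        rw [card_erase_of_mem hw, hS, Nat.add_sub_cancel]
      have h1 : (n : R) * ∑ w ∈ S, t (∑ y ∈ S, c w y) * W t c (S.erase w) =
          ∑ w ∈ S, ∑ v ∈ S.erase w, t (∑ y ∈ S, c w y - ∑ y ∈ S, c v y + c v w) *
            W t c ((S.erase w).erase v) := by
        rw [mul_sum]
        refine sum_congr rfl fun w hw => ?_
        have := ih _ (hc1 w hw)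
        rw [hc1 w hw] at this
        rw [mul_left_comm, this, mul_sum]
        refine sum_congr rfl fun v _ => ?_
        rw [← mul_assoc, ← hadd, sum_erase_eq_sub hw]
        congr 2; ring
      have h2 : (n : R) * ∑ v ∈ S, t (-∑ y ∈ S, c v y) * W t c (S.erase v) =
          ∑ v ∈ S, ∑ w ∈ S.erase v, t (∑ y ∈ S, c w y - ∑ y ∈ S, c v y + c v w) *
            W t c ((S.erase w).erase v) := by
        rw [mul_sum]
        refine sum_congr rfl fun v hv => ?_
        have := W_first (t := t) (c := c) (S.erase v)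
        rw [hc1 v hv] at this
        rw [mul_left_comm, this, mul_sum]
        refine sum_congr rfl fun w _ => ?_
        rw [← mul_assoc, ← hadd, sum_erase_eq_sub hv, erase_right_comm, hc w v]
        congr 2; ring
      rw [h1, h2]
      refine sum_comm' fun w v => ?_
      simp only [mem_erase]
      tauto

lemma W_union (hc : ∀ x y, c x y = -c y x) (n : ℕ) :
    ∀ S S' : Finset α, S.card + S'.card = n → Disjoint S S' → (∀ x ∈ S, ∀ y ∈ S', c x y = 0) →
      W t c (S ∪ S') = W t c S * W t c S' := by
  induction n with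
  | zero =>
    intro S S' h _ _
    rw [card_eq_zero.1 (show S.card = 0 by omega), card_eq_zero.1 (show S'.card = 0 by omega)]
    simp
  | succ n ih =>
    intro S S' h hd h0
    refine nat_cancel (S ∪ S').card (by rw [card_union_of_disjoint hd]; omega) ?_
    rw [W_first, card_union_of_disjoint hd, sum_union hd, Nat.cast_add, add_mul, ← mul_assoc,
      W_first, mul_left_comm, W_first, sum_mul, mul_sum]
    refine congrArg₂ (· + ·) ?_ ?_
    · refine sum_congr rfl fun w hw => ?_
      have hw' : w ∉ S' := disjoint_left.1 hd hw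
      rw [sum_union hd, sum_eq_zero (h0 w hw), add_zero, erase_union_distrib,
        erase_eq_of_notMem hw', ih _ _ (by rw [card_erase_of_mem hw]; have := card_pos.2 ⟨w, hw⟩; omega)
          (disjoint_of_subset_left (erase_subset _ _) hd)
          (fun x hx => h0 x (mem_of_mem_erase hx)), mul_assoc]
    · refine sum_congr rfl fun w hw => ?_
      have hw' : w ∉ S := disjoint_right.1 hd hw
      rw [sum_union hd, sum_eq_zero (fun y hy => by rw [hc, h0 y hy w hw, neg_zero]), zero_add,
        erase_union_distrib, erase_eq_of_notMem hw',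
        ih _ _ (by rw [card_erase_of_mem hw]; have := card_pos.2 ⟨w, hw⟩; omega)
          (disjoint_of_subset_right (erase_subset _ _) hd)
          (fun x hx y hy => h0 x hx y (mem_of_mem_erase hy)), mul_left_comm]

/-- One term of the root function: `S` comes before the root and `S'` after it. -/
noncomputable def term (t : ℤ → R) (c : α → α → ℤ) (S S' : Finset α) (h : α → ℤ) : R[X] :=
  C (W t c S * W t c S' * t (∑ x ∈ S, ∑ y ∈ S', c x y - ∑ x ∈ S, h x + ∑ y ∈ S', h y)) *
    X ^ S.card * (1 - X) ^ S'.card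

/-- The root function. -/
noncomputable def FF (t : ℤ → R) (c : α → α → ℤ) (S : Finset α) (h : α → ℤ) : R[X] :=
  ∑ T ∈ S.powerset, term t c T (S \ T) h

lemma term_deriv (hadd : ∀ m n, t (m + n) = t m * t n) (hc : ∀ x y, c x y = -c y x)
    (S S' : Finset α) (h : α → ℤ) :
    derivative (term t c S S' h) =
      ∑ w ∈ S, C (t (-h w)) * term t c (S.erase w) S' (fun y => h y + c w y) -
        ∑ w ∈ S', C (t (h w)) * term t c S (S'.erase w) (fun y => h y + c w y) := by
  have hww : ∀ w, c w w = 0 := fun w => by have := hc w w; omega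
  set E := ∑ x ∈ S, ∑ y ∈ S', c x y - ∑ x ∈ S, h x + ∑ y ∈ S', h y with hE
  have h1 : ∑ w ∈ S, C (t (-h w)) * term t c (S.erase w) S' (fun y => h y + c w y) =
      C ((S.card : R) * W t c S * W t c S' * t E) * X ^ (S.card - 1) * (1 - X) ^ S'.card := by
    rw [W_last hadd hc _ S rfl, sum_mul, sum_mul, map_sum, sum_mul, sum_mul]
    refine sum_congr rfl fun w hw => ?_
    rw [term, card_erase_of_mem hw, ← mul_assoc, ← mul_assoc, ← map_mul]
    congr 3
    have : t (-h w) * t (∑ x ∈ S.erase w, ∑ y ∈ S', c x y - ∑ x ∈ S.erase w, (h x + c w x) +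
        ∑ y ∈ S', (h y + c w y)) = t (-∑ y ∈ S, c w y) * t E := by
      rw [← hadd, ← hadd, hE, sum_erase_eq_sub hw, sum_erase_eq_sub hw, sum_add_distrib,
        sum_add_distrib, hww]
      congr 1; ring
    linear_combination (W t c (S.erase w) * W t c S') * this
  have h2 : ∑ w ∈ S', C (t (h w)) * term t c S (S'.erase w) (fun y => h y + c w y) =
      C (W t c S * ((S'.card : R) * W t c S') * t E) * X ^ S.card * (1 - X) ^ (S'.card - 1) := by
    rw [W_first, mul_sum, sum_mul, map_sum, sum_mul, sum_mul]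
    refine sum_congr rfl fun w hw => ?_
    rw [term, card_erase_of_mem hw, ← mul_assoc, ← mul_assoc, ← map_mul]
    congr 3
    have : t (h w) * t (∑ x ∈ S, ∑ y ∈ S'.erase w, c x y - ∑ x ∈ S, (h x + c w x) +
        ∑ y ∈ S'.erase w, (h y + c w y)) = t (∑ y ∈ S', c w y) * t E := by
      have h3 : ∑ x ∈ S, ∑ y ∈ S'.erase w, c x y = ∑ x ∈ S, ∑ y ∈ S', c x y + ∑ x ∈ S, c w x := by
        rw [← sum_add_distrib]
        refine sum_congr rfl fun x _ => ?_
        rw [sum_erase_eq_sub hw, hc w x]; ring
      rw [← hadd, ← hadd, hE, h3, sum_erase_eq_sub hw, sum_add_distrib, sum_add_distrib, hww]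
      congr 1; ring
    linear_combination (W t c S * W t c (S'.erase w)) * this
  rw [h1, h2, term, ← hE]
  simp only [derivative_mul, derivative_C, derivative_pow, derivative_sub,
    derivative_one, derivative_X, map_mul, map_natCast]
  ring

lemma FF_deriv (hadd : ∀ m n, t (m + n) = t m * t n) (hc : ∀ x y, c x y = -c y x)
    (S : Finset α) (h : α → ℤ) :
    derivative (FF t c S h) =
      ∑ w ∈ S, C (t (-h w) - t (h w)) * FF t c (S.erase w) (fun y => h y + c w y) := by
  simp only [FF, derivative_sum, term_deriv hadd hc, sum_sub_distrib, map_sub, sub_mul, mul_sum]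
  refine congrArg₂ (· - ·) ?_ ?_
  · rw [sum_comm' (t' := S) (s' := fun w => S.powerset.filter (fun T => w ∈ T))
      (by intro T w; simp only [mem_powerset, mem_filter]; tauto)]
    refine sum_congr rfl fun w hw => ?_
    refine sum_nbij' (fun T => T.erase w) (fun T => insert w T) ?_ ?_ ?_ ?_ ?_
    · intro T hT
      simp only [mem_powerset, mem_filter] at hT ⊢
      exact erase_subset_erase _ hT.1
    · intro T hT
      simp only [mem_powerset, mem_filter] at hT ⊢
      exact ⟨insert_subset hw (hT.trans (erase_subset _ _)), mem_insert_self _ _⟩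
    · intro T hT
      exact insert_erase (mem_filter.1 hT).2
    · intro T hT
      exact erase_insert fun h => by simpa using mem_powerset.1 hT h
    · intro T hT
      have := (mem_filter.1 hT).2
      congr 2
      ext x
      simp only [mem_sdiff, mem_erase]
      constructor
      · rintro ⟨h1, h2⟩
        exact ⟨⟨fun h => h2 (h ▸ this), h1⟩, fun h => h2 h.2⟩
      · rintro ⟨⟨h1, h2⟩, h3⟩
        exact ⟨h2, fun h => h3 ⟨h1, h⟩⟩
  · rw [sum_comm' (t' := S) (s' := fun w => (S.erase w).powerset)
      (by intro T w; simp only [mem_powerset, mem_sdiff, subset_erase]; tauto)]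
    refine sum_congr rfl fun w _ => sum_congr rfl fun T _ => ?_
    congr 2
    ext x
    simp only [mem_sdiff, mem_erase]
    tauto

lemma FF_zero (S : Finset α) (h : α → ℤ) :
    (FF t c S h).eval 0 = t (∑ y ∈ S, h y) * W t c S := by
  rw [FF, eval_finsetSum, sum_eq_single ∅]
  · simp [term, mul_comm]
  · intro T _ hT
    simp [term, card_eq_zero, hT]
  · simp

lemma FF_one (S : Finset α) (h : α → ℤ) :
    (FF t c S h).eval 1 = t (-∑ y ∈ S, h y) * W t c S := by
  rw [FF, eval_finsetSum, sum_eq_single S]
  · simp [term, mul_comm]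
  · intro T hT hT2
    have : (S \ T).card ≠ 0 := by
      rw [Ne, card_eq_zero, sdiff_eq_empty_iff_subset]
      exact fun h => hT2 (Subset.antisymm (mem_powerset.1 hT) h)
    simp [term, this]
  · simp

lemma FF_congr (S : Finset α) (h h' : α → ℤ) (e : ∀ x ∈ S, h x = h' x) :
    FF t c S h = FF t c S h' := by
  refine sum_congr rfl fun T hT => ?_
  rw [term, term, sum_congr rfl fun x hx => e x (mem_powerset.1 hT hx),
    sum_congr rfl fun x hx => e x (mem_sdiff.1 hx).1]

lemma FF_union (hadd : ∀ m n, t (m + n) = t m * t n) (hc : ∀ x y, c x y = -c y x) (n : ℕ) :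
    ∀ (S S' : Finset α) (h : α → ℤ), S.card + S'.card = n → Disjoint S S' →
      (∀ x ∈ S, ∀ y ∈ S', c x y = 0) → FF t c (S ∪ S') h = FF t c S h * FF t c S' h := by
  induction n using Nat.strong_induction_on with
  | _ n ih =>
    intro S S' h hn hd h0
    have h1 : derivative (FF t c (S ∪ S') h - FF t c S h * FF t c S' h) = 0 := by
      rw [map_sub, derivative_mul, FF_deriv hadd hc, FF_deriv hadd hc, FF_deriv hadd hc,
        sum_union hd, sum_mul, mul_sum, sub_eq_zero]
      refine congrArg₂ (· + ·) ?_ ?_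
      · refine sum_congr rfl fun w hw => ?_
        have hw' : w ∉ S' := disjoint_left.1 hd hw
        rw [erase_union_distrib, erase_eq_of_notMem hw',
          ih _ (by rw [card_erase_of_mem hw]; have := card_pos.2 ⟨w, hw⟩; omega) _ _ _ rfl
            (disjoint_of_subset_left (erase_subset _ _) hd)
            (fun x hx => h0 x (mem_of_mem_erase hx)),
          FF_congr S' _ h (fun y hy => by rw [h0 w hw y hy, add_zero]), mul_assoc]
      · refine sum_congr rfl fun w hw => ?_
        have hw' : w ∉ S := disjoint_right.1 hd hw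
        rw [erase_union_distrib, erase_eq_of_notMem hw',
          ih _ (by rw [card_erase_of_mem hw]; have := card_pos.2 ⟨w, hw⟩; omega) _ _ _ rfl
            (disjoint_of_subset_right (erase_subset _ _) hd)
            (fun x hx y hy => h0 x hx y (mem_of_mem_erase hy)),
          FF_congr S _ h (fun y hy => by rw [hc, h0 y hy w hw, neg_zero, add_zero]),
          mul_left_comm]
    have h2 := const_of_deriv h1
    rw [eval_sub, eval_mul, FF_zero, FF_zero, FF_zero, W_union hc _ S S' rfl hd h0, sum_union hd,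
      hadd] at h2
    rw [← sub_eq_zero, h2, ← map_zero C]
    exact congrArg _ (by ring)

end Pool.Agent.Work.MP_880652_co.Hedge
end

-- merged part: Pool.Agent.Work.MP_880652_co.Hedge.Forest
section
set_option autoImplicit false

namespace Pool.Agent.Work.MP_880652_co.Hedge

open Polynomial Finset

variable {R : Type*} [CommRing R] [Algebra ℚ R] [IsDomain R] {α : Type*} [DecidableEq α]
  {t : ℤ → R} {c : α → α → ℤ}

lemma rtg_mono {β : Type*} {r s : β → β → Prop} (h : ∀ x y, r x y → s x y) {x y : β}
    (hxy : Relation.ReflTransGen r x y) : Relation.ReflTransGen s x y := by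
  induction hxy with
  | refl => exact .refl
  | tail _ h2 ih => exact ih.tail (h _ _ h2)

/-- Joined by a path inside `S`. -/
def Reach (c : α → α → ℤ) (S : Finset α) (x y : α) : Prop :=
  Relation.ReflTransGen (fun s s' => s ∈ S ∧ s' ∈ S ∧ c s s' ≠ 0) x y

lemma single_root (hadd : ∀ m n, t (m + n) = t m * t n) (h0 : t 0 = 1) (hne : t 1 ≠ t (-1))
    (hc : ∀ x y, c x y = -c y x) (S : Finset α) (h : α → ℤ) (w : α) (hw : w ∈ S)
    (h1 : h w = 1 ∨ h w = -1) (h2 : ∀ x ∈ S, x ≠ w → h x = 0)
    (hK : KK (t 1) (t (-1)) (FF t c (S.erase w) (c w))) :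
    KK (t 1) (t (-1)) (FF t c S h) ∧ UC (t 1) (t (-1)) (W t c S) := by
  have hpq : t 1 * t (-1) = 1 := by rw [← hadd]; simpa using h0
  have hs : ∑ y ∈ S, h y = h w := sum_eq_single_of_mem w hw h2
  have hd := FF_deriv hadd hc S h
  rw [sum_eq_single_of_mem w hw (fun x hx hxw => by rw [h2 x hx hxw]; simp),
    FF_congr (S.erase w) _ (c w) (fun x hx => by
      rw [h2 x (mem_of_mem_erase hx) (ne_of_mem_erase hx), zero_add])] at hd
  have hz := FF_zero (t := t) (c := c) S h
  have ho := FF_one (t := t) (c := c) S h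
  rw [hs] at hz ho
  rcases h1 with h1 | h1
  · rw [h1] at hd hz ho
    exact edge_lemma hpq hne hK hd hz ho
  · rw [h1] at hd hz ho
    rw [neg_neg] at hd ho
    have := edge_lemma (by rw [mul_comm, hpq]) hne.symm (KK_symm hK) hd hz ho
    exact ⟨KK_symm this.1, UC_symm this.2⟩

theorem forest_KK (hadd : ∀ m n, t (m + n) = t m * t n) (h0 : t 0 = 1) (hne : t 1 ≠ t (-1))
    (hc : ∀ x y, c x y = -c y x) (hv : ∀ x y, c x y = 0 ∨ c x y = 1 ∨ c x y = -1)
    (hac : ∀ w x y, c w x ≠ 0 → c w y ≠ 0 →
      Relation.ReflTransGen (fun s s' => s ≠ w ∧ s' ≠ w ∧ c s s' ≠ 0) x y → x = y) (n : ℕ) :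
    ∀ (S : Finset α) (h : α → ℤ), S.card = n → (∀ x, h x = 0 ∨ h x = 1 ∨ h x = -1) →
      (∀ x ∈ S, ∀ y ∈ S, h x ≠ 0 → h y ≠ 0 → Reach c S x y → x = y) →
      KK (t 1) (t (-1)) (FF t c S h) := by
  classical
  have hpq : t 1 * t (-1) = 1 := by rw [← hadd]; simpa using h0
  induction n using Nat.strong_induction_on with
  | _ n ih =>
    intro S h hn hh hr
    have hstep : ∀ w ∈ S, KK (t 1) (t (-1)) (FF t c (S.erase w) (c w)) := by
      intro w hw
      refine ih _ (by rw [card_erase_of_mem hw]; have := card_pos.2 ⟨w, hw⟩; omega) _ _ rfl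
        (hv w) fun x _ y _ hx hy hxy => hac w x y hx hy ?_
      refine rtg_mono ?_ hxy
      exact fun s s' hs => ⟨ne_of_mem_erase hs.1, ne_of_mem_erase hs.2.1, hs.2.2⟩
    by_cases hz : ∀ x ∈ S, h x = 0
    · have hd := FF_deriv hadd hc S h
      rw [sum_eq_zero (fun x hx => by rw [hz x hx]; simp)] at hd
      rw [const_of_deriv hd, FF_zero, sum_eq_zero hz, h0, one_mul]
      rcases S.eq_empty_or_nonempty with rfl | ⟨w, hw⟩
      · simpa using KK_one _ _
      · exact KK_C hpq (single_root hadd h0 hne hc S (fun x => if x = w then 1 else 0) w hw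
          (by simp) (fun x _ hx => if_neg hx) (hstep w hw)).2
    · push Not at hz
      obtain ⟨w, hw, hw0⟩ := hz
      by_cases h2 : ∀ x ∈ S, x ≠ w → h x = 0
      · exact (single_root hadd h0 hne hc S h w hw ((hh w).resolve_left hw0) h2 (hstep w hw)).1
      · push Not at h2
        obtain ⟨v, hv1, hv2, hv3⟩ := h2
        have hU : S.filter (fun x => Reach c S w x) ∪ S.filter (fun x => ¬Reach c S w x) = S :=
          filter_union_filter_not_eq _ _
        have hcard := card_filter_add_card_filter_not (s := S) (fun x => Reach c S w x)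
        have hp1 : 0 < (S.filter (fun x => Reach c S w x)).card :=
          card_pos.2 ⟨w, mem_filter.2 ⟨hw, Relation.ReflTransGen.refl⟩⟩
        have hp2 : 0 < (S.filter (fun x => ¬Reach c S w x)).card :=
          card_pos.2 ⟨v, mem_filter.2 ⟨hv1, fun hh => hv2 (hr w hw v hv1 hw0 hv3 hh).symm⟩⟩
        have hsub : ∀ T : Finset α, T ⊆ S → T.card < n → KK (t 1) (t (-1)) (FF t c T h) := by
          intro T hT hlt
          refine ih _ hlt T h rfl hh fun x hx y hy a1 a2 a3 => hr x (hT hx) y (hT hy) a1 a2 ?_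
          refine rtg_mono ?_ a3
          exact fun s s' hs => ⟨hT hs.1, hT hs.2.1, hs.2.2⟩
        rw [← hU, FF_union hadd hc _ _ _ h rfl (disjoint_filter_filter_not _ _ _) ?_]
        · exact KK_mul hpq (hsub _ (filter_subset _ _) (by omega))
            (hsub _ (filter_subset _ _) (by omega))
        · intro x hx y hy
          by_contra hxy
          exact (mem_filter.1 hy).2 ((mem_filter.1 hx).2.tail
            ⟨(mem_filter.1 hx).1, (mem_filter.1 hy).1, hxy⟩)

theorem forest_UC (hadd : ∀ m n, t (m + n) = t m * t n) (h0 : t 0 = 1) (hne : t 1 ≠ t (-1))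
    (hc : ∀ x y, c x y = -c y x) (hv : ∀ x y, c x y = 0 ∨ c x y = 1 ∨ c x y = -1)
    (hac : ∀ w x y, c w x ≠ 0 → c w y ≠ 0 →
      Relation.ReflTransGen (fun s s' => s ≠ w ∧ s' ≠ w ∧ c s s' ≠ 0) x y → x = y)
    (S : Finset α) : UC (t 1) (t (-1)) (W t c S) := by
  rcases S.eq_empty_or_nonempty with rfl | ⟨w, hw⟩
  · exact Cone.of_mem ⟨1, by simp [br]⟩
  · refine (single_root hadd h0 hne hc S (fun x => if x = w then 1 else 0) w hw
      (by simp) (fun x _ hx => if_neg hx) ?_).2
    refine forest_KK hadd h0 hne hc hv hac _ _ _ rfl (hv w) fun x _ y _ hx hy hxy =>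
      hac w x y hx hy ?_
    refine rtg_mono ?_ hxy
    exact fun s s' hs => ⟨ne_of_mem_erase hs.1, ne_of_mem_erase hs.2.1, hs.2.2⟩

end Pool.Agent.Work.MP_880652_co.Hedge
end

-- merged part: Pool.Agent.Work.MP_880652_co.Hedge.Link
section
set_option autoImplicit false

namespace Pool.Agent.Work.MP_880652_co.Hedge

open Finset

section

variable {R : Type*} [CommRing R] [Algebra ℚ R] {α : Type*} [DecidableEq α] [Fintype α]
  {t : ℤ → R} {c : α → α → ℤ}

/-- Exponent of the weight of a listing. -/
def ex (c : α → α → ℤ) {n : ℕ} (f : Fin n → α) : ℤ :=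
  ∑ i, ∑ j, if i < j then c (f i) (f j) else 0

omit [DecidableEq α] [Fintype α] in
lemma ex_cons {n : ℕ} (w : α) (g : Fin n → α) :
    ex c (Fin.cons w g : Fin (n + 1) → α) = ∑ j, c w (g j) + ex c g := by
  simp [ex, Fin.sum_univ_succ]

open Classical in
lemma W_eq_sum (hadd : ∀ m n, t (m + n) = t m * t n) (h0 : t 0 = 1)
    (hc : ∀ x y, c x y = -c y x) (n : ℕ) : ∀ S : Finset α, S.card = n →
      (n.factorial : R) * W t c S =
        ∑ f : Fin n → α, if Function.Injective f ∧ ∀ i, f i ∈ S then t (ex c f) else 0 := by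
  induction n with
  | zero =>
    intro S hS
    rw [card_eq_zero.1 hS]
    simp [ex, h0, Function.injective_of_subsingleton]
  | succ n ih =>
    intro S hS
    have h1 : ((n + 1).factorial : R) * W t c S = n.factorial * ((S.card : R) * W t c S) := by
      rw [hS, Nat.factorial_succ]; push_cast; ring
    rw [h1, W_first, mul_sum, ← (Fin.consEquiv fun _ : Fin (n + 1) => α).sum_comp,
      Fintype.sum_prod_type, ← sum_subset (subset_univ S)]
    · refine sum_congr rfl fun w hw => ?_
      have hcard : (S.erase w).card = n := by rw [card_erase_of_mem hw, hS, Nat.add_sub_cancel]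
      rw [mul_left_comm, ih _ hcard, mul_sum]
      refine sum_congr rfl fun g _ => ?_
      have hiff : (Function.Injective (Fin.cons w g : Fin (n + 1) → α) ∧
          ∀ i, (Fin.cons w g : Fin (n + 1) → α) i ∈ S) ↔
          (Function.Injective g ∧ ∀ i, g i ∈ S.erase w) := by
        rw [Fin.cons_injective_iff, Fin.forall_fin_succ]
        simp only [Fin.cons_zero, Fin.cons_succ, mem_erase, Set.mem_range, not_exists]
        constructor
        · rintro ⟨⟨a1, a2⟩, _, a4⟩
          exact ⟨a2, fun i => ⟨a1 i, a4 i⟩⟩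
        · rintro ⟨a1, a2⟩
          exact ⟨⟨fun i => (a2 i).1, a1⟩, hw, fun i => (a2 i).2⟩
      change _ = if Function.Injective (Fin.cons w g : Fin (n + 1) → α) ∧
          ∀ i, (Fin.cons w g : Fin (n + 1) → α) i ∈ S then
          t (ex c (Fin.cons w g : Fin (n + 1) → α)) else 0
      by_cases hg : Function.Injective g ∧ ∀ i, g i ∈ S.erase w
      · rw [if_pos hg, if_pos (hiff.2 hg), ex_cons, hadd]
        have him : univ.image g = S.erase w := by
          refine eq_of_subset_of_card_le (fun y hy => ?_) ?_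
          · obtain ⟨i, _, rfl⟩ := mem_image.1 hy
            exact hg.2 i
          · rw [card_image_of_injective _ hg.1, hcard]; simp
        have hww : c w w = 0 := by have := hc w w; omega
        rw [← sum_image (f := c w) (fun i _ j _ h => hg.1 h), him, sum_erase_eq_sub hw, hww,
          sub_zero]
      · rw [if_neg hg, if_neg (fun h => hg (hiff.1 h)), mul_zero]
    · intro w _ hw
      refine sum_eq_zero fun g _ => if_neg fun h => hw ?_
      exact h.2 0

lemma W_univ (hadd : ∀ m n, t (m + n) = t m * t n) (h0 : t 0 = 1)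
    (hc : ∀ x y, c x y = -c y x) :
    ((Fintype.card α).factorial : R) * W t c univ =
      ∑ σ : α ≃ Fin (Fintype.card α), t (∑ x, ∑ y, if σ x < σ y then c x y else 0) := by
  classical
  rw [W_eq_sum hadd h0 hc _ univ card_univ, ← sum_filter]
  symm
  refine sum_bij (fun σ _ => (σ.symm : Fin (Fintype.card α) → α)) ?_ ?_ ?_ ?_
  · intro σ _
    simpa using σ.symm.injective
  · intro σ _ τ _ h
    exact Equiv.symm_bijective.1 (Equiv.coe_fn_injective h)
  · intro f hf
    have hb : Function.Bijective f :=
      (Fintype.bijective_iff_injective_and_card f).2 ⟨(mem_filter.1 hf).2.1, by simp⟩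
    exact ⟨(Equiv.ofBijective f hb).symm, mem_univ _, rfl⟩
  · intro σ _
    refine congrArg t ?_
    rw [ex, ← σ.sum_comp]
    refine sum_congr rfl fun x _ => ?_
    rw [← σ.sum_comp]
    simp

end

open LaurentPolynomial

lemma coeff_br (n : ℕ) : ∀ m : ℤ,
    (br (T 1) (T (-1)) n : LaurentPolynomial ℚ).coeff m =
      if |m| < n ∧ (m + n) % 2 = 1 then 1 else 0 := by
  induction n with
  | zero => intro m; rw [if_neg (fun h => by have := abs_nonneg m; omega)]; simp [br]
  | succ n ih =>
    intro m
    have h1 : ∀ f : LaurentPolynomial ℚ, (T (-1) * f).coeff m = f.coeff (m + 1) := by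
      intro f
      induction f using LaurentPolynomial.induction_on' with
      | add p q hp hq =>
        rw [mul_add, AddMonoidAlgebra.coeff_add, AddMonoidAlgebra.coeff_add, Finsupp.add_apply,
          Finsupp.add_apply, hp, hq]
      | C_mul_T k a =>
        rw [mul_left_comm, ← T_add, ← single_eq_C_mul_T, ← single_eq_C_mul_T]
        simp only [AddMonoidAlgebra.coeff_single, Finsupp.single_apply]
        by_cases h : k = m + 1
        · rw [if_pos h, if_pos (by omega)]
        · rw [if_neg h, if_neg (by omega)]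
    rw [br, T_pow, mul_one, AddMonoidAlgebra.coeff_add, Finsupp.add_apply, T_apply, h1, ih]
    simp only [abs_lt]
    push_cast
    split_ifs <;> first | (exfalso; omega) | simp

lemma UC_coeff {f : LaurentPolynomial ℚ} (h : UC (T 1) (T (-1)) f) (m m' : ℤ)
    (h1 : m % 2 = m' % 2) (h2 : |m| ≤ |m'|) : f.coeff m' ≤ f.coeff m := by
  induction h with
  | zero => simp
  | add x y _ _ a1 a2 => simpa using add_le_add a1 a2
  | gen r x hr hx =>
    obtain ⟨n, rfl⟩ := hx
    simp only [AddMonoidAlgebra.coeff_smul, Finsupp.smul_apply, smul_eq_mul, coeff_br]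
    refine mul_le_mul_of_nonneg_left ?_ hr
    by_cases h : |m'| < n ∧ (m' + n) % 2 = 1
    · rw [if_pos h, if_pos ⟨lt_of_le_of_lt h2 h.1, by omega⟩]
    · rw [if_neg h]; split_ifs <;> simp

open Classical in
/-- The sign of an ordered pair in a partial order. -/
noncomputable def sg {α : Type*} [PartialOrder α] (x y : α) : ℤ :=
  (if x < y then 1 else 0) - (if y < x then 1 else 0)

lemma sg_anti {α : Type*} [PartialOrder α] (x y : α) : sg x y = -sg y x := by
  simp [sg]

lemma sg_val {α : Type*} [PartialOrder α] (x y : α) : sg x y = 0 ∨ sg x y = 1 ∨ sg x y = -1 := by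
  unfold sg; split_ifs <;> simp

lemma sg_adj {α : Type*} [PartialOrder α] {x y : α} (h : sg x y ≠ 0) :
    (SimpleGraph.fromRel (fun s s' : α => s < s')).Adj x y := by
  rw [SimpleGraph.fromRel_adj]
  by_cases h1 : x < y
  · exact ⟨h1.ne, Or.inl h1⟩
  · by_cases h2 : y < x
    · exact ⟨h2.ne', Or.inr h2⟩
    · exact absurd (by simp [sg, h1, h2]) h

lemma sg_acyclic {α : Type*} [PartialOrder α]
    (h : (SimpleGraph.fromRel (fun s s' : α => s < s')).IsAcyclic) (w x y : α) (hx : sg w x ≠ 0)
    (hy : sg w y ≠ 0)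
    (hr : Relation.ReflTransGen (fun s s' => s ≠ w ∧ s' ≠ w ∧ sg s s' ≠ 0) x y) : x = y := by
  by_contra hne
  have hb := SimpleGraph.isBridge_iff.1
    (SimpleGraph.isAcyclic_iff_forall_adj_isBridge.1 h (sg_adj hx))
  apply hb
  have h1 : ∀ z, Relation.ReflTransGen (fun s s' => s ≠ w ∧ s' ≠ w ∧ sg s s' ≠ 0) x z →
      ((SimpleGraph.fromRel (fun s s' : α => s < s')).deleteEdges {s(w, x)}).Reachable x z := by
    intro z hz
    induction hz with
    | refl => exact SimpleGraph.Reachable.refl _
    | tail _ h2 ih =>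
      refine ih.trans (SimpleGraph.Adj.reachable ?_)
      rw [SimpleGraph.deleteEdges_adj]
      refine ⟨sg_adj h2.2.2, fun h3 => ?_⟩
      rcases Sym2.eq_iff.1 (Set.mem_singleton_iff.1 h3) with h4 | h4
      · exact h2.1 h4.1
      · exact h2.2.1 h4.2
  refine SimpleGraph.Reachable.trans (SimpleGraph.Adj.reachable ?_) (h1 y hr).symm
  rw [SimpleGraph.deleteEdges_adj]
  refine ⟨sg_adj hy, fun h3 => ?_⟩
  rcases Sym2.eq_iff.1 (Set.mem_singleton_iff.1 h3) with h4 | h4
  · exact hne h4.2.symm
  · exact (sg_adj hx).ne h4.1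

open Classical in
lemma sg_sum {α : Type*} [PartialOrder α] [Fintype α] {n : ℕ} (σ : α ≃ Fin n) :
    (∑ x, ∑ y, if σ x < σ y then sg x y else 0) =
      2 * ((univ.filter (fun p : α × α => p.1 < p.2 ∧ σ p.1 < σ p.2)).card : ℤ) -
        (univ.filter (fun p : α × α => p.1 < p.2)).card := by
  have h1 : (∑ x, ∑ y, if σ x < σ y then sg x y else 0) =
      (∑ x, ∑ y, if x < y ∧ σ x < σ y then (1 : ℤ) else 0) -
        ∑ x, ∑ y, if y < x ∧ σ x < σ y then (1 : ℤ) else 0 := by
    simp only [← sum_sub_distrib]
    refine sum_congr rfl fun x _ => sum_congr rfl fun y _ => ?_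
    by_cases h : σ x < σ y <;> simp [sg, h]
  rw [h1, sum_comm (f := fun x y => if y < x ∧ σ x < σ y then (1 : ℤ) else 0), card_filter,
    card_filter]
  push_cast
  rw [Fintype.sum_prod_type, Fintype.sum_prod_type]
  simp only [mul_sum, ← sum_sub_distrib]
  refine sum_congr rfl fun x _ => sum_congr rfl fun y _ => ?_
  by_cases h : x < y
  · have h2 : σ x ≠ σ y := fun e => h.ne (σ.injective e)
    rcases lt_or_gt_of_ne h2 with h3 | h3
    · simp [h, h3, h3.not_gt]
    · simp [h, h3, h3.not_gt]
  · simp [h]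

open Classical in
theorem count_mono {α : Type*} [PartialOrder α] [Fintype α]
    (h : (SimpleGraph.fromRel (fun s s' : α => s < s')).IsAcyclic) (i j : ℕ)
    (hij : |2 * (i : ℤ) - (univ.filter (fun p : α × α => p.1 < p.2)).card| ≤
      |2 * (j : ℤ) - (univ.filter (fun p : α × α => p.1 < p.2)).card|) :
    (univ.filter (fun σ : α ≃ Fin (Fintype.card α) =>
        (univ.filter (fun p : α × α => p.1 < p.2 ∧ σ p.1 < σ p.2)).card = j)).card ≤
      (univ.filter (fun σ : α ≃ Fin (Fintype.card α) =>
        (univ.filter (fun p : α × α => p.1 < p.2 ∧ σ p.1 < σ p.2)).card = i)).card := by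
  have hne : (T 1 : LaurentPolynomial ℚ) ≠ T (-1) := by
    intro e
    have := congrArg (fun f : LaurentPolynomial ℚ => f.coeff 1) e
    simp at this
  have hU := forest_UC (t := (T : ℤ → LaurentPolynomial ℚ)) T_add T_zero hne sg_anti sg_val
    (sg_acyclic h) univ
  have hU2 := Cone.smul hU (r := ((Fintype.card α).factorial : ℚ)) (by positivity)
  rw [Nat.cast_smul_eq_nsmul, nsmul_eq_mul, W_univ T_add T_zero sg_anti] at hU2
  have h3 := UC_coeff hU2 _ _ (by omega) hij
  have h4 : ∀ i : ℕ, (∑ σ : α ≃ Fin (Fintype.card α),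
      (T (∑ x, ∑ y, if σ x < σ y then sg x y else 0) : LaurentPolynomial ℚ)).coeff
        (2 * (i : ℤ) - (univ.filter (fun p : α × α => p.1 < p.2)).card) =
      ((univ.filter (fun σ : α ≃ Fin (Fintype.card α) =>
        (univ.filter (fun p : α × α => p.1 < p.2 ∧ σ p.1 < σ p.2)).card = i)).card : ℚ) := by
    intro i
    rw [AddMonoidAlgebra.coeff_sum, Finsupp.finsetSum_apply]
    conv_rhs => rw [natCast_card_filter]
    refine sum_congr rfl fun σ _ => ?_
    rw [T_apply, sg_sum]
    exact if_congr (by omega) rfl rfl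
  rw [h4, h4] at h3
  exact_mod_cast h3

end Pool.Agent.Work.MP_880652_co.Hedge
end
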